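import Pool.Agent.MP_4d7ea7_an.Public
import Pool.Agent.MP_4d7ea7_an.Transfer

open MeasureTheory Metric Set Module
open scoped ENNReal ContDiff

namespace Pool.Agent.Results.MP_4d7ea7_an.ComparableInradii

open Pool.Agent.MP_4d7ea7_an.Public CapInradius

theorem energy_eq {N : ℕ} {p : ℝ} (hp : 0 < p) {U : Set (RN N)} (hU : IsOpen U) {φ : RN N → ℝ}
    (hφ : tsupport φ ⊆ U) : energy p U φ = en volume p φ := by
  unfold energy en
  have hg : ∀ x, ‖gradient φ x‖ₑ = ‖fderiv ℝ φ x‖ₑ := by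
    intro x
    rw [← ofReal_norm, ← ofReal_norm, gradient, LinearIsometryEquiv.norm_map]
  simp_rw [hg]
  rw [← lintegral_indicator hU.measurableSet]
  refine lintegral_congr fun x => ?_
  by_cases hx : x ∈ U
  · rw [indicator_of_mem hx]
  · have h8 : ‖fderiv ℝ φ x‖ₑ = 0 := by
      rw [← ofReal_norm, fderiv_of_notMem_tsupport ℝ (fun h => hx (hφ h)), norm_zero,
        ENNReal.ofReal_zero]
    rw [indicator_of_notMem hx, h8, ENNReal.zero_rpow_of_pos hp]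

theorem pcap_eq {N : ℕ} {p : ℝ} (hp : 0 < p) (S : Set (RN N)) {U : Set (RN N)} (hU : IsOpen U) :
    pcap p S U = pc volume p S U := by
  refine le_antisymm (le_pc fun φ h1 h2 => ?_) (le_iInf₂ fun φ hφ => ?_)
  · rw [← energy_eq hp hU h1.supp]
    exact iInf₂_le φ ⟨⟨h1.smooth, h1.cs, h1.supp⟩, h2⟩
  · rw [energy_eq hp hU hφ.1.2.2]
    exact pc_le ⟨hφ.1.1, hφ.1.2.1, hφ.1.2.2⟩ hφ.2

/-- For all `N ≥ 2`, `1 < p < N` and all `γ, γ'` in `(0, 1)` the capacitary inradius with parameter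
`γ` and the capacitary inradius of Maz'ya and Shubin with parameter `γ'` are comparable, with
constants that do not depend on the open set. -/
theorem result (N : ℕ) (_hN : 2 ≤ N) (p : ℝ) (hp : 1 < p) (hpN : p < N)
    (γ γ' : ℝ) (hγ0 : 0 < γ) (hγ1 : γ < 1) (hγ'0 : 0 < γ') (hγ'1 : γ' < 1) :
    ∃ c₁ c₂ : ℝ, 0 < c₁ ∧ 0 < c₂ ∧ ∀ Ω : Set (RN N), IsOpen Ω →
      ENNReal.ofReal c₁ * inradiusMS p γ' Ω ≤ inradius p γ Ω ∧
      inradius p γ Ω ≤ ENNReal.ofReal c₂ * inradiusMS p γ' Ω := by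
  have hp0 : 0 < p := by linarith
  have hfr : p < finrank ℝ (RN N) := by
    rw [finrank_euclideanSpace_fin]
    exact hpN
  obtain ⟨a, ha, hA⟩ := transfer (volume : Measure (RN N)) goodDom_univ goodDom_ball hp hfr
    hγ'0 hγ'1 hγ0
  obtain ⟨b, hb, hB⟩ := transfer (volume : Measure (RN N)) goodDom_ball goodDom_univ hp hfr
    hγ0 hγ1 hγ'0
  refine ⟨a, b⁻¹, ha, inv_pos.2 hb, fun Ω hΩ => ⟨?_, ?_⟩⟩
  · unfold inradiusMS
    rw [ENNReal.mul_sSup]
    refine iSup₂_le fun R hR => ?_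
    obtain ⟨r, hr, rfl, x₀, hx₀⟩ := hR
    rw [pcap_eq hp0 _ isOpen_univ, pcap_eq hp0 _ isOpen_univ] at hx₀
    obtain ⟨x₁, hx₁⟩ := hA Ω hΩ x₀ r hr hx₀
    rw [← ENNReal.ofReal_mul ha.le]
    refine le_sSup ⟨a * r, by positivity, rfl, x₁, ?_⟩
    rw [pcap_eq hp0 _ isOpen_ball, pcap_eq hp0 _ isOpen_ball]
    exact hx₁
  · refine sSup_le fun R hR => ?_
    obtain ⟨r, hr, rfl, x₀, hx₀⟩ := hR
    rw [pcap_eq hp0 _ isOpen_ball, pcap_eq hp0 _ isOpen_ball] at hx₀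
    obtain ⟨x₁, hx₁⟩ := hB Ω hΩ x₀ r hr hx₀
    have h1 : ENNReal.ofReal (b * r) ≤ inradiusMS p γ' Ω := by
      refine le_sSup ⟨b * r, by positivity, rfl, x₁, ?_⟩
      rw [pcap_eq hp0 _ isOpen_univ, pcap_eq hp0 _ isOpen_univ]
      exact hx₁
    calc ENNReal.ofReal r = ENNReal.ofReal b⁻¹ * ENNReal.ofReal (b * r) := by
          rw [← ENNReal.ofReal_mul (by positivity)]
          congr 1
          field_simp
      _ ≤ _ := mul_le_mul' le_rfl h1

end Pool.Agent.Results.MP_4d7ea7_an.ComparableInradii
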